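import Pool.Agent.Q182.EX.KR0
import Pool.Agent.Q240.EX.Stm5
import Pool.Agent.Q240.CD.AllZ
import Pool.Agent.Q65.EX.UZt

set_option autoImplicit false

/-!
# Project EX of helper240, job KR: the kernel bound on the real line
-/

open Polynomial Filter Topology Finset MeasureTheory
open Pool.Agent
open Pool.Agent.H24R2.JP (XX)
open Pool.Agent.Q240.CD
open Pool.Agent.Q240.EX
open Pool.Agent.Q65.EX (hd_of_hn hn_mono SS_add_par SS_neg TT_tendsto)

namespace Pool.Agent.Q182.EX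

/-- the products `S` are bounded by one on the real line -/
theorem Sr_sq_le (hSpB : S_SpB) (hNear : S_Near) (hFar : S_Far) {a : ℝ} (ha : 0 < a) (n : ℕ) (x : ℝ) : Sr a n x ^ 2 ≤ 1 := by
  have hpi := Real.pi_gt_three
  have hx1 : 0 < xk a (n + 1) := by
    unfold xk
    positivity
  have hsn : 0 ≤ sn a n := tsum_nonneg fun k => by positivity
  have e : ‖Sp a n (x : ℂ)‖ ^ 2 = Sr a n x ^ 2 := by
    rw [(hSpB a n).2.2.2.1 x, Complex.norm_real, Real.norm_eq_abs, sq_abs]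
  rw [← e]
  rcases le_total |x| (xk a (n + 1)) with h | h
  · have h1 := hNear a n (x : ℂ) ha (by simpa using h) (by simpa using hx1.le)
    refine h1.trans ?_
    rw [Complex.ofReal_re, Complex.ofReal_im, Real.exp_le_one_iff]
    have : 0 ≤ x ^ 2 * sn a n := by positivity
    nlinarith
  · have h1 := hFar a n (x : ℂ) ha (by simpa using h)
    refine h1.trans ?_
    rw [Complex.ofReal_re, Complex.ofReal_im, abs_zero, mul_zero, Real.exp_zero]
    have h2 : 1 ≤ |x| / xk a (n + 1) := by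
      rw [one_le_div hx1]
      exact h
    have h3 : (1 : ℝ) ≤ (|x| / xk a (n + 1)) ^ (4 * n) := one_le_pow₀ h2
    have h4 : (1 : ℝ) ≤ 4 ^ n := one_le_pow₀ (by norm_num)
    have h5 : 1 ≤ (a * x) ^ 2 := by
      have h6 : 1 ≤ a * |x| := by
        have h7 : a * xk a (n + 1) = Real.pi * (n + 1) := by
          unfold xk
          push_cast
          field_simp
        have h8 : a * xk a (n + 1) ≤ a * |x| := mul_le_mul_of_nonneg_left h ha.le
        have h9 : (0 : ℝ) ≤ n := Nat.cast_nonneg n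
        nlinarith
      have h10 : (a * x) ^ 2 = (a * |x|) ^ 2 := by rw [mul_pow, mul_pow, sq_abs]
      rw [h10]
      exact one_le_pow₀ h6
    have h6 : 1 ≤ (a * x) ^ 2 * (|x| / xk a (n + 1)) ^ (4 * n) * 4 ^ n :=
      one_le_mul_of_one_le_of_one_le (one_le_mul_of_one_le_of_one_le h5 h3) h4
    exact div_le_one_of_le₀ h6 (by positivity)

variable {γ : ℕ → ℝ}

theorem gam_pos (hγ : EN γ) (j : ℕ) : 0 < γ j := lt_of_lt_of_le hγ.pos (hγ.mono.monotone (Nat.zero_le j))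

theorem summ_m (hγ : EN γ) : Summable fun j => (mz (γ j : ℂ) : ℝ) / γ j ^ 2 := by
  have hp := gam_pos hγ
  have h0 : 0 < γ 0 ^ 2 := pow_pos hγ.pos 2
  refine Summable.of_nonneg_of_le (fun j => by have := hp j; positivity) (fun j => ?_) (hγ.sum.mul_left ((γ 0 ^ 2) ^ (-(1 / 8 : ℝ))))
  have hj : 0 < γ j ^ 2 := pow_pos (hp j) 2
  have h2 : γ 0 ^ 2 ≤ γ j ^ 2 := pow_le_pow_left₀ hγ.pos.le (hγ.mono.monotone (Nat.zero_le j)) 2
  have h3 : (γ j ^ 2) ^ (-(1 / 8 : ℝ)) ≤ (γ 0 ^ 2) ^ (-(1 / 8 : ℝ)) :=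
    Real.rpow_le_rpow_of_nonpos h0 h2 (by norm_num)
  have h4 : 1 / γ j ^ 2 = (γ j ^ 2) ^ (-(1 / 8 : ℝ)) * (1 / (γ j ^ 2) ^ (7 / 8 : ℝ)) := by
    rw [one_div ((γ j ^ 2) ^ (7 / 8 : ℝ)), ← Real.rpow_neg hj.le, ← Real.rpow_add hj, one_div, ← Real.rpow_neg_one]
    norm_num
  have h5 : (mz (γ j : ℂ) : ℝ) / γ j ^ 2 = (γ j ^ 2) ^ (-(1 / 8 : ℝ)) * ((mz (γ j : ℂ) : ℝ) / (γ j ^ 2) ^ (7 / 8 : ℝ)) := by
    rw [div_eq_mul_one_div, h4, div_eq_mul_one_div (mz (γ j : ℂ) : ℝ)]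
    ring
  rw [h5]
  refine mul_le_mul_of_nonneg_right h3 ?_
  positivity

theorem summ_1 (hγ : EN γ) : Summable fun j => 1 / γ j ^ 2 := by
  refine Summable.of_nonneg_of_le (fun j => by have := gam_pos hγ j; positivity) (fun j => ?_) (summ_m hγ)
  have h1 : (1 : ℝ) ≤ (mz (γ j : ℂ) : ℝ) := by exact_mod_cast hγ.m1 j
  have := gam_pos hγ j
  gcongr

/-- the masses are admissible in every degree -/
theorem pmZ (hRH : RHy) (hγ : EN γ) {a : ℝ} (ha : 0 < a) (n : ℕ) :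
    PM (fun j => γ j ^ 2) (Mg γ (fun _ => n) a) n := by
  have hp := gam_pos hγ
  have hgn : ∀ j, 0 ≤ (fun j => γ j ^ 2) j := fun j => sq_nonneg _
  refine ⟨fun i j hij => pow_lt_pow_left₀ (hγ.mono hij) (hp i).le two_ne_zero, pow_pos hγ.pos 2, fun j => ?_, ?_, ?_⟩
  · unfold Mg
    positivity
  · obtain ⟨⟨C, hC, hb⟩, -⟩ := a_inty a n ha
    refine Summable.of_nonneg_of_le (fun j => ?_) (fun j => ?_) ((summ_m hγ).mul_left (2 * C))
    · unfold Mg
      have := hp j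
      positivity
    · have hj := hp j
      have e0 : Real.sqrt (γ j ^ 2) = γ j := Real.sqrt_sq hj.le
      have h1 := hb (γ j : ℂ) (by rw [Complex.ofReal_im, abs_zero]; norm_num)
      rw [(a_spB a n).2.2.2.1 (γ j), Complex.norm_real, Real.norm_eq_abs, sq_abs, Complex.norm_real, Real.norm_eq_abs,
        abs_of_pos hj] at h1
      have h2 : (1 + γ j ^ 2) ^ (2 * n) ≤ (1 + γ j) ^ (4 * n) := by
        rw [show 4 * n = 2 * (2 * n) by ring, pow_mul (1 + γ j) 2]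
        exact pow_le_pow_left₀ (by positivity) (by nlinarith) _
      have h3 : Sr a n (γ j) ^ 2 * (1 + γ j ^ 2) ^ (2 * n) ≤ C / γ j ^ 2 := by
        calc Sr a n (γ j) ^ 2 * (1 + γ j ^ 2) ^ (2 * n) ≤ (C / (1 + γ j) ^ (4 * n + 2)) * (1 + γ j) ^ (4 * n) :=
              mul_le_mul h1 h2 (by positivity) (by positivity)
          _ = C / (1 + γ j) ^ 2 := by
              rw [pow_add]
              field_simp
          _ ≤ C / γ j ^ 2 := by
              have : γ j ^ 2 ≤ (1 + γ j) ^ 2 := by nlinarith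
              exact div_le_div_of_nonneg_left hC.le (by positivity) this
      unfold Mg
      simp only
      rw [e0]
      calc 2 * (mz (γ j : ℂ) : ℝ) * Sr a n (γ j) ^ 2 * (1 + γ j ^ 2) ^ (2 * n)
          = 2 * (mz (γ j : ℂ) : ℝ) * (Sr a n (γ j) ^ 2 * (1 + γ j ^ 2) ^ (2 * n)) := by ring
        _ ≤ 2 * (mz (γ j : ℂ) : ℝ) * (C / γ j ^ 2) := mul_le_mul_of_nonneg_left h3 (by positivity)
        _ = 2 * C * ((mz (γ j : ℂ) : ℝ) / γ j ^ 2) := by ring
  · intro q hq hq0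
    by_contra hcon
    push Not at hcon
    have hd : (q.comp (X ^ 2)).natDegree ≤ 2 * n := by
      rw [natDegree_comp, natDegree_X_pow]
      omega
    obtain ⟨f, hf, h1, -, h2⟩ := real_elem a_repInv a_form ha (q.comp (X ^ 2)) hd
    rw [LZ_Lp a_spB a_sumZ hp hγ.tot (fun _ => n) ha _ hd, Pool.Agent.Q240.CD.Lp_even _ _ hgn] at h1
    have h3 : Y23.QQ f ≤ 0 := by rw [h1]; exact hcon
    have h4 := a_posZ hRH a _ f ha hf h3
    have hx1 : 0 < xk a (n + 1) := by unfold xk; positivity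
    have h5 : ∀ x : ℝ, x ∈ Set.Ioo 0 (xk a (n + 1)) → (q.comp (X ^ 2)).eval x = 0 := by
      intro x hx
      have h6 := h2 (x : ℂ)
      rw [h4, aeval_real] at h6
      rcases mul_eq_zero.1 h6.symm with h7 | h7
      · exact_mod_cast h7
      · exfalso
        obtain ⟨k, -, hk⟩ := ((a_spB a n).2.2.2.2.2.2 (x : ℂ)).1 h7
        have h8 : x ^ 2 = xk a (n + 1 + k) ^ 2 := by exact_mod_cast hk
        have h9 : xk a (n + 1) ≤ xk a (n + 1 + k) := by
          unfold xk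
          refine div_le_div_of_nonneg_right ?_ ha.le
          refine mul_le_mul_of_nonneg_left ?_ Real.pi_pos.le
          push_cast
          have : (0 : ℝ) ≤ k := Nat.cast_nonneg k
          linarith
        have h10 : x ^ 2 < xk a (n + 1 + k) ^ 2 := pow_lt_pow_left₀ (lt_of_lt_of_le hx.2 h9) hx.1.le two_ne_zero
        exact h10.ne h8
    have h6 : q.comp (X ^ 2) = 0 := by
      refine Polynomial.eq_zero_of_infinite_isRoot _ ((Set.Ioo_infinite hx1).mono fun x hx => ?_)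
      exact h5 x hx
    rcases comp_eq_zero_iff.1 h6 with h7 | h7
    · exact hq0 h7
    · have h8 := h7.2
      have h9 := congrArg natDegree h8
      rw [natDegree_X_pow, natDegree_C] at h9
      omega

/-- the kernel bound in finite degree -/
theorem kr_fin (hRH : RHy) (hγ : EN γ) {a : ℝ} (ha : 0 < a) (n : ℕ) {δ : ℝ}
    (hδ : ∀ g : ℝ → ℂ, Y23.G.F.Hn a (n : ℕ∞) g → Y23.TT g 0 = 1 → δ ≤ Y23.QQ g) {f : ℝ → ℂ} (hf : Y23.G.F.Hn a (n : ℕ∞) f) (x : ℝ) :
    δ * ‖Y23.TT f (Complex.I * x)‖ ^ 2 ≤ (1 + x ^ 2 / γ 0 ^ 2) * Gm γ x ^ 2 * Y23.QQ f := by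
  have hp := gam_pos hγ
  have hgn : ∀ j, 0 ≤ (fun j => γ j ^ 2) j := fun j => sq_nonneg _
  have hPM := pmZ hRH hγ ha n
  obtain ⟨q0, h0⟩ := Pool.Agent.Q280.CD2.ext _ _ n hPM 0
  have hδ0 : δ ≤ Lam (fun j => γ j ^ 2) (Mg γ (fun _ => n) a) (q0 * q0) := by
    have hd : (q0.comp (X ^ 2)).natDegree ≤ 2 * n := by
      rw [natDegree_comp, natDegree_X_pow]
      have := h0.1
      omega
    obtain ⟨e, he, h1, -, h2⟩ := real_elem a_repInv a_form ha (q0.comp (X ^ 2)) hd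
    rw [LZ_Lp a_spB a_sumZ hp hγ.tot (fun _ => n) ha _ hd, Pool.Agent.Q240.CD.Lp_even _ _ hgn] at h1
    have h3 : Y23.TT e 0 = 1 := by
      have h4 := h2 0
      rw [mul_zero, (a_spB a n).2.2.1, mul_one] at h4
      rw [h4]
      have h5 := aeval_real (q0.comp (X ^ 2)) 0
      rw [Complex.ofReal_zero] at h5
      rw [h5, eval_comp, eval_pow, eval_X]
      have h6 := h0.2.1
      simp [h6]
    rw [← h1]
    exact hδ e he h3
  obtain ⟨P, hP, h1⟩ := a_rep a n f ha hf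
  obtain ⟨A, B, hA, hB, h2⟩ := split_re _ P hP
  have h3 : ∀ z : ℂ, Y23.TT f (Complex.I * z) = (aeval z A + Complex.I * aeval z B) * Sp a n z := fun z => by rw [h1, h2]
  obtain ⟨h4, -⟩ := a_form a n f A B ha hf hA hB h3
  rw [LZ_Lp a_spB a_sumZ hp hγ.tot (fun _ => n) ha A hA, LZ_Lp a_spB a_sumZ hp hγ.tot (fun _ => n) ha B hB] at h4
  have h5 : ‖Y23.TT f (Complex.I * x)‖ ^ 2 ≤ A.eval x ^ 2 + B.eval x ^ 2 := by
    rw [h3, (a_spB a n).2.2.2.1 x, norm_mul, mul_pow, Complex.norm_real, Real.norm_eq_abs, sq_abs, aeval_real, aeval_real]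
    have h6 : ‖((A.eval x : ℝ) : ℂ) + Complex.I * ((B.eval x : ℝ) : ℂ)‖ ^ 2 = A.eval x ^ 2 + B.eval x ^ 2 := by
      rw [← Complex.normSq_eq_norm_sq, mul_comm, Complex.normSq_add_mul_I]
    rw [h6]
    exact mul_le_of_le_one_right (by positivity) (Sr_sq_le a_spB a_near a_far ha n x)
  have h6 := poly_bound a_zer Pool.Agent.Q261.EX.kern hPM (summ_1 hγ) h0 hA x
  have h7 := poly_bound a_zer Pool.Agent.Q261.EX.kern hPM (summ_1 hγ) h0 hB x
  have h8 : 0 ≤ Lam (fun j => γ j ^ 2) (Mg γ (fun _ => n) a) (q0 * q0) := Pool.Agent.Q280.CD2.lam_nonneg hPM q0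
  obtain ⟨δ0, hδ1⟩ : ∃ δ0, δ0 = Lam (fun j => γ j ^ 2) (Mg γ (fun _ => n) a) (q0 * q0) := ⟨_, rfl⟩
  rw [← hδ1] at hδ0 h6 h7 h8
  rw [h4]
  unfold Gm
  calc δ * ‖Y23.TT f (Complex.I * x)‖ ^ 2 ≤ δ0 * ‖Y23.TT f (Complex.I * x)‖ ^ 2 := mul_le_mul_of_nonneg_right hδ0 (by positivity)
    _ ≤ δ0 * (A.eval x ^ 2 + B.eval x ^ 2) := mul_le_mul_of_nonneg_left h5 h8
    _ = A.eval x ^ 2 * δ0 + B.eval x ^ 2 * δ0 := by ring
    _ ≤ _ := (add_le_add h6 h7).trans (le_of_eq (by ring))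

/-- **KR** -/
theorem kr (hDn : S_Dn) : S_KR := by
  intro hRH γ hγ a ν δ ha hδ f hf x
  induction ν using ENat.recTopCoe with
  | coe n => exact kr_fin hRH hγ ha n hδ hf x
  | top =>
    have hfd := hd_of_hn hf
    have hex : ∀ k : ℕ, ∃ (n : ℕ) (h : ℝ → ℂ), Y23.G.F.Hn a (n : ℕ∞) h ∧
        Y23.LL (fun x => f x - h x) ≤ 1 / ((k : ℝ) + 1) := by
      intro k
      obtain ⟨n, h, h1, h2⟩ := hDn a f ha hfd (1 / ((k : ℝ) + 1)) (by positivity)
      exact ⟨n, h, h1, h2⟩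
    choose n h hh hl using hex
    obtain ⟨C, hC, hdom⟩ := Y23.dom_of_Hd ha
    obtain ⟨c, hc⟩ : ∃ c, c = (1 + x ^ 2 / γ 0 ^ 2) * Gm γ x ^ 2 := ⟨_, rfl⟩
    have hc0 : 0 ≤ c := by
      rw [hc]
      positivity
    have hhd : ∀ k, Y23.Hd a (h k) := fun k => hd_of_hn (hh k)
    have hfinite : ∀ k, δ * ‖Y23.TT (h k) (Complex.I * x)‖ ^ 2 ≤ c * Y23.QQ (h k) := by
      intro k
      rw [hc]
      exact kr_fin hRH hγ ha (n k) (fun g hg hg0 => hδ g (hn_mono le_top hg) hg0) (hh k) x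
    have hlim : Tendsto (fun k => δ * ‖Y23.TT (h k) (Complex.I * x)‖ ^ 2) atTop
        (𝓝 (δ * ‖Y23.TT f (Complex.I * x)‖ ^ 2)) :=
      (((TT_tendsto ha hfd hhd hl _).norm).pow 2).const_mul δ
    have hSS : ∀ s : ℝ, 0 < s → ∀ k : ℕ, Y23.SS (h k) ≤ (1 + s) * Y23.SS f + (1 + 1 / s) * (C * (1 / ((k : ℝ) + 1))) := by
      intro s hs k
      have h1 : Y23.Hd a (fun x => f x - h k x) := hfd.sub (hhd k)
      have h2 := SS_add_par ha hfd (h1.smul (-1)) hs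
      have e : (fun x => f x + -1 * (f x - h k x)) = h k := by funext x; ring
      rw [e, SS_neg] at h2
      refine h2.trans ?_
      have h3 := (hdom _ h1).2
      have h4 : Y23.SS (fun x => f x - h k x) ≤ C * (1 / ((k : ℝ) + 1)) :=
        h3.trans (mul_le_mul_of_nonneg_left (hl k) hC.le)
      have h5 : 0 ≤ 1 + 1 / s := by positivity
      have := mul_le_mul_of_nonneg_left h4 h5
      linarith
    have hkey : ∀ s : ℝ, 0 < s → δ * ‖Y23.TT f (Complex.I * x)‖ ^ 2 ≤ c * ((1 + s) * Y23.SS f) := by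
      intro s hs
      have h1 : Tendsto (fun k : ℕ => c * ((1 + s) * Y23.SS f + (1 + 1 / s) * (C * (1 / ((k : ℝ) + 1))))) atTop
          (𝓝 (c * ((1 + s) * Y23.SS f + (1 + 1 / s) * (C * 0)))) :=
        ((((tendsto_one_div_add_atTop_nhds_zero_nat (𝕜 := ℝ)).const_mul C).const_mul (1 + 1 / s)).const_add
          ((1 + s) * Y23.SS f)).const_mul c
      have h2 := le_of_tendsto_of_tendsto' hlim h1 fun k => (hfinite k).trans (by
        rw [Y23.QQ_eq_SS hRH]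
        exact mul_le_mul_of_nonneg_left (hSS s hs k) hc0)
      simpa using h2
    have h3 : Tendsto (fun m : ℕ => c * ((1 + 1 / ((m : ℝ) + 1)) * Y23.SS f)) atTop (𝓝 (c * ((1 + 0) * Y23.SS f))) :=
      (((tendsto_one_div_add_atTop_nhds_zero_nat (𝕜 := ℝ)).const_add 1).mul_const (Y23.SS f)).const_mul c
    have h4 := ge_of_tendsto' h3 fun m => hkey (1 / ((m : ℝ) + 1)) (by positivity)
    rw [← hc, Y23.QQ_eq_SS hRH]
    simpa using h4

end Pool.Agent.Q182.EX
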