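import Pool.Agent.Q208.EX.Neg1
import Pool.Agent.Q261.EX.Kern
import Pool.Agent.Q16.CD.Uni

set_option autoImplicit false

/-!
# Project EX of helper240, job KR, part 1: point masses and polynomials, the sharp constant
-/

open Polynomial Filter Topology Finset MeasureTheory
open Pool.Agent.Q240.CD
open Pool.Agent.Q280.CD2 (summable_eval lam_add lam_C_mul lam_nonneg deg_mul gpos)
open Pool.Agent.Q208.EX (ex_le ex_shift pm_shift)

namespace Pool.Agent.Q182.EX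

variable {g M : ℕ → ℝ} {n : ℕ}

/-- finite products are bounded by the infinite product -/
theorem prod_le {f : ℕ → ℝ} (hf : ∀ j, 0 ≤ f j) (hs : Summable f) (d : ℕ) :
    ∏ j ∈ range d, (1 + f j) ≤ ∏' j, (1 + f j) := by
  have hm : Multipliable fun j => 1 + f j := Real.multipliable_one_add_of_summable hs
  have ht := hm.hasProd.tendsto_prod_nat
  have hmono : Monotone fun d : ℕ => ∏ j ∈ range d, (1 + f j) := by
    refine monotone_nat_of_le_succ fun d => ?_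
    rw [prod_range_succ]
    have h1 : 0 ≤ ∏ j ∈ range d, (1 + f j) := prod_nonneg fun j _ => by linarith [hf j]
    have h2 := hf d
    nlinarith
  exact hmono.ge_of_tendsto ht d

theorem one_le_tprod {f : ℕ → ℝ} (hf : ∀ j, 0 ≤ f j) (hs : Summable f) : 1 ≤ ∏' j, (1 + f j) := by
  have := prod_le hf hs 0
  simpa using this

/-- the value at zero of the extremal polynomial of a negative point, sharp -/
theorem ex_zero_inv (hZer : S_Zer) (hPM : PM g M n) (hs : Summable fun j => 1 / g j) {τ : ℝ} (hτ : 0 ≤ τ) {k : ℝ[X]}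
    (hk : Ex g M n (-τ) k) : 1 ≤ (∏' j, (1 + τ / g j)) * k.eval 0 := by
  have hg := gpos hPM
  obtain ⟨k', hk'⟩ : ∃ k' : ℝ[X], k' = k.comp (X - C τ) := ⟨_, rfl⟩
  have hex := ex_shift τ hk
  rw [← hk'] at hex
  obtain ⟨c, A, hA, hprod, -, -, hc⟩ := hZer _ M n (pm_shift hPM hτ) 0 k'
    (fun j => by have := hg j; show g j + τ ≠ 0; linarith [this]) hex
  have hc' : ∀ j, j < k'.natDegree → g j + τ < c j := hc rfl
  obtain ⟨d, hd⟩ : ∃ d, d = k'.natDegree := ⟨_, rfl⟩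
  rw [← hd] at hprod hc'
  have hcp : ∀ j ∈ range d, 0 < c j := fun j hj => by
    have h1 := hc' j (mem_range.1 hj)
    have h2 := hg j
    linarith
  have hev : ∀ x : ℝ, k'.eval x = A * ∏ j ∈ range d, (x - c j) := fun x => by
    rw [hprod, eval_mul, eval_C, eval_prod]
    simp only [eval_sub, eval_X, eval_C]
  have h1 : A * ∏ j ∈ range d, (0 - c j) = 1 := by
    rw [← hev]
    exact hex.2.1
  have h2 : k.eval 0 = A * ∏ j ∈ range d, (τ - c j) := by
    rw [← hev, hk', eval_comp, eval_sub, eval_X, eval_C, sub_self]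
  have h3 : k.eval 0 = ∏ j ∈ range d, (1 - τ / c j) := by
    have h4 : ∏ j ∈ range d, (τ - c j) = (∏ j ∈ range d, (1 - τ / c j)) * ∏ j ∈ range d, (0 - c j) := by
      rw [← prod_mul_distrib]
      refine prod_congr rfl fun j hj => ?_
      have := (hcp j hj).ne'
      field_simp
      ring
    rw [h2, h4]
    calc A * ((∏ j ∈ range d, (1 - τ / c j)) * ∏ j ∈ range d, (0 - c j)) =
          (∏ j ∈ range d, (1 - τ / c j)) * (A * ∏ j ∈ range d, (0 - c j)) := by ring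
      _ = _ := by rw [h1, mul_one]
  have h5 : ∀ j ∈ range d, 1 ≤ (1 + τ / g j) * (1 - τ / c j) := by
    intro j hj
    have hgj := hg j
    have hcj := hc' j (mem_range.1 hj)
    have h6 : τ / c j ≤ τ / (g j + τ) := by
      have : 0 < g j + τ := by linarith
      gcongr
    have h7 : (1 + τ / g j) * (1 - τ / (g j + τ)) = 1 := by
      have h8 : g j + τ ≠ 0 := by linarith
      have h9 := hgj.ne'
      field_simp
      ring
    have h8 : 0 ≤ 1 + τ / g j := by positivity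
    calc (1 : ℝ) = (1 + τ / g j) * (1 - τ / (g j + τ)) := h7.symm
      _ ≤ _ := mul_le_mul_of_nonneg_left (by linarith) h8
  have h6 : 1 ≤ (∏ j ∈ range d, (1 + τ / g j)) * ∏ j ∈ range d, (1 - τ / c j) := by
    rw [← prod_mul_distrib]
    calc (1 : ℝ) = ∏ _j ∈ range d, (1 : ℝ) := by rw [prod_const_one]
      _ ≤ _ := prod_le_prod (fun _ _ => zero_le_one) h5
  have h7 : 0 ≤ ∏ j ∈ range d, (1 - τ / c j) := by
    refine prod_nonneg fun j hj => ?_
    have hgj := hg j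
    have hcj := hc' j (mem_range.1 hj)
    have h8 : τ / c j ≤ 1 := by
      rw [div_le_one (by linarith)]
      linarith
    linarith
  have hs' : Summable fun j => τ / g j := by
    refine (hs.mul_left τ).congr fun j => ?_
    rw [mul_one_div]
  have h8 := prod_le (fun j => div_nonneg hτ (hg j).le) hs' d
  rw [h3]
  exact h6.trans (mul_le_mul_of_nonneg_right h8 h7)

/-- the evaluation at the negative points, sharp constant -/
theorem neg_sharp (hZer : S_Zer) (hPM : PM g M n) (hs : Summable fun j => 1 / g j) {q0 : ℝ[X]} (h0 : Ex g M n 0 q0)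
    {q : ℝ[X]} {τ : ℝ} (hq : q.natDegree ≤ n) (hτ : 0 ≤ τ) :
    q.eval (-τ) ^ 2 * Lam g M (q0 * q0) ≤ (∏' j, (1 + τ / g j)) ^ 2 * Lam g M (q * q) := by
  obtain ⟨k, hk⟩ := Pool.Agent.Q280.CD2.ext g M n hPM (-τ)
  have h1 := ex_le hPM hk q hq
  have h2 := ex_le hPM h0 k hk.1
  have h3 := ex_zero_inv hZer hPM hs hτ hk
  obtain ⟨G, hG⟩ : ∃ G, G = ∏' j, (1 + τ / g j) := ⟨_, rfl⟩
  obtain ⟨δ, hδ⟩ : ∃ δ, δ = Lam g M (q0 * q0) := ⟨_, rfl⟩
  obtain ⟨κ, hκ⟩ : ∃ κ, κ = Lam g M (k * k) := ⟨_, rfl⟩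
  obtain ⟨Λ, hΛ⟩ : ∃ Λ, Λ = Lam g M (q * q) := ⟨_, rfl⟩
  have hδ0 : 0 ≤ δ := by rw [hδ]; exact lam_nonneg hPM q0
  rw [← hG] at h3 ⊢
  rw [← hδ] at h2 ⊢
  rw [← hκ] at h1 h2
  rw [← hΛ] at h1 ⊢
  have h4 : 1 ≤ (G * k.eval 0) ^ 2 := one_le_pow₀ h3
  calc q.eval (-τ) ^ 2 * δ ≤ (G * k.eval 0) ^ 2 * (q.eval (-τ) ^ 2 * δ) :=
        le_mul_of_one_le_left (by positivity) h4
    _ = G ^ 2 * (q.eval (-τ) ^ 2 * (k.eval 0 ^ 2 * δ)) := by ring
    _ ≤ G ^ 2 * (q.eval (-τ) ^ 2 * κ) := by gcongr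
    _ ≤ G ^ 2 * Λ := by gcongr

/-- the evaluation at the real points, sharp constant -/
theorem real_sharp (hZer : S_Zer) (hKern : Pool.Agent.Q240.EX.S_Kern) (hPM : PM g M n) (hs : Summable fun j => 1 / g j)
    {q0 : ℝ[X]} (h0 : Ex g M n 0 q0) {q : ℝ[X]} {τ : ℝ} (hq : q.natDegree ≤ n) (hτ : 0 ≤ τ) :
    q.eval τ ^ 2 * Lam g M (q0 * q0) ≤ (∏' j, (1 + τ / g j)) ^ 2 * Lam g M (q * q) := by
  have hne : q0 ≠ 0 := by
    rintro rfl
    have := h0.2.1
    simp at this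
  have hδ : 0 < Lam g M (q0 * q0) := hPM.dfn q0 h0.1 hne
  have h1 : ∀ p : ℝ[X], p.natDegree ≤ n → p.eval (-τ) ^ 2 ≤
      ((∏' j, (1 + τ / g j)) ^ 2 / Lam g M (q0 * q0)) * Lam g M (p * p) := by
    intro p hp
    have h2 := neg_sharp hZer hPM hs h0 hp hτ
    rw [div_mul_eq_mul_div, le_div_iff₀ hδ]
    exact h2
  have h3 := hKern g M n hPM _ τ hτ h1 q (τ : ℂ) hq (by rw [Complex.norm_real, Real.norm_eq_abs, abs_of_nonneg hτ])
  rw [div_mul_eq_mul_div, le_div_iff₀ hδ] at h3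
  have h4 : ‖aeval (τ : ℂ) q‖ ^ 2 = q.eval τ ^ 2 := by
    have h := Polynomial.aeval_algebraMap_apply ℂ τ q
    rw [Polynomial.coe_aeval_eq_eval] at h
    have h' : aeval (τ : ℂ) q = ((q.eval τ : ℝ) : ℂ) := h
    rw [h', Complex.norm_real, Real.norm_eq_abs, sq_abs]
  rw [h4] at h3
  exact h3

/-- the form of `X r²` against the form of `r²` -/
theorem lam_X (hPM : PM g M n) {r : ℝ[X]} (hr : r = 0 ∨ r.natDegree + 1 ≤ n) :
    g 0 * Lam g M (r * r) ≤ Lam g M (X * r * r) := by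
  have d1 : (r * r).natDegree ≤ 2 * n := by
    rcases hr with rfl | hr
    · simp
    · exact natDegree_mul_le.trans (by omega)
  have d2 : (X * r * r).natDegree ≤ 2 * n := by
    rcases hr with rfl | hr
    · simp
    · have h1 : (X * r).natDegree ≤ 1 + r.natDegree := natDegree_mul_le.trans (by rw [natDegree_X])
      exact natDegree_mul_le.trans (by omega)
  unfold Lam
  rw [← tsum_mul_left]
  refine ((Pool.Agent.Q16.CD.PM.summ hPM d1).mul_left (g 0)).tsum_le_tsum (fun j => ?_) (Pool.Agent.Q16.CD.PM.summ hPM d2)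
  have h1 := hPM.nonneg j
  have h2 : g 0 ≤ g j := hPM.mono.monotone (Nat.zero_le j)
  have h3 : 0 ≤ r.eval (g j) ^ 2 := sq_nonneg _
  simp only [eval_mul, eval_X]
  have h4 : 0 ≤ M j * r.eval (g j) ^ 2 := mul_nonneg h1 h3
  nlinarith [mul_le_mul_of_nonneg_right h2 h4]

/-- **the kernel bound for polynomials of degree at most `2 n` on the real line** -/
theorem poly_bound (hZer : S_Zer) (hKern : Pool.Agent.Q240.EX.S_Kern) (hPM : PM g M n) (hs : Summable fun j => 1 / g j)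
    {q0 : ℝ[X]} (h0 : Ex g M n 0 q0) {P : ℝ[X]} (hP : P.natDegree ≤ 2 * n) (x : ℝ) :
    P.eval x ^ 2 * Lam g M (q0 * q0) ≤ (1 + x ^ 2 / g 0) * (∏' j, (1 + x ^ 2 / g j)) ^ 2 * Lp g M P := by
  obtain ⟨q, hqd⟩ : ∃ q, q = contract 2 P := ⟨_, rfl⟩
  obtain ⟨r, hrd⟩ : ∃ r, r = contract 2 (divX P) := ⟨_, rfl⟩
  have hs1 : P = q.comp (X ^ 2) + X * r.comp (X ^ 2) := by
    rw [hqd, hrd]
    exact Pool.Agent.Q16.CD.split_eval P
  have hq : q.natDegree ≤ n := by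
    rw [hqd]
    exact Pool.Agent.Q16.CD.deg_contract hP
  have hr : r = 0 ∨ r.natDegree + 1 ≤ n := by
    by_cases h : r = 0
    · exact Or.inl h
    · right
      rw [hrd] at h ⊢
      exact Pool.Agent.Q16.CD.deg_contract' hP h
  have hr' : r.natDegree ≤ n := by
    rcases hr with rfl | hr
    · simp
    · omega
  have hLp : Lp g M P = Lam g M (q * q) + Lam g M (X * r * r) := by
    conv_lhs => rw [hs1]
    exact Pool.Agent.Q16.CD.Lp_split hPM hq hr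
  have hev : P.eval x = q.eval (x ^ 2) + x * r.eval (x ^ 2) := by
    conv_lhs => rw [hs1]
    simp [eval_add, eval_comp, eval_mul]
  have h1 := real_sharp hZer hKern hPM hs h0 hq (sq_nonneg x)
  have h2 := real_sharp hZer hKern hPM hs h0 hr' (sq_nonneg x)
  have h3 := lam_X hPM hr
  have hg0 := hPM.pos
  rw [hLp, hev]
  obtain ⟨G, hG⟩ : ∃ G, G = (∏' j, (1 + x ^ 2 / g j)) ^ 2 := ⟨_, rfl⟩
  obtain ⟨δ, hδ⟩ : ∃ δ, δ = Lam g M (q0 * q0) := ⟨_, rfl⟩
  have hδ0 : 0 ≤ δ := by rw [hδ]; exact lam_nonneg hPM q0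
  have hG0 : 0 ≤ G := by rw [hG]; positivity
  rw [← hG] at h1 h2 ⊢
  rw [← hδ] at h1 h2 ⊢
  obtain ⟨u, hu⟩ : ∃ u, u = q.eval (x ^ 2) := ⟨_, rfl⟩
  obtain ⟨v, hv⟩ : ∃ v, v = r.eval (x ^ 2) := ⟨_, rfl⟩
  rw [← hu] at h1 ⊢
  rw [← hv] at h2 ⊢
  have h4 : (u + x * v) ^ 2 ≤ (1 + x ^ 2 / g 0) * (u ^ 2 + g 0 * v ^ 2) := by
    have e : (1 + x ^ 2 / g 0) * (u ^ 2 + g 0 * v ^ 2) - (u + x * v) ^ 2 = (g 0 * v - x * u) ^ 2 / g 0 := by
      field_simp
      ring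
    have : 0 ≤ (g 0 * v - x * u) ^ 2 / g 0 := by positivity
    linarith
  have h5 : 0 ≤ 1 + x ^ 2 / g 0 := by positivity
  calc (u + x * v) ^ 2 * δ ≤ ((1 + x ^ 2 / g 0) * (u ^ 2 + g 0 * v ^ 2)) * δ := mul_le_mul_of_nonneg_right h4 hδ0
    _ = (1 + x ^ 2 / g 0) * (u ^ 2 * δ + g 0 * (v ^ 2 * δ)) := by ring
    _ ≤ (1 + x ^ 2 / g 0) * (G * Lam g M (q * q) + g 0 * (G * Lam g M (r * r))) := by gcongr
    _ = (1 + x ^ 2 / g 0) * (G * (Lam g M (q * q) + g 0 * Lam g M (r * r))) := by ring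
    _ ≤ (1 + x ^ 2 / g 0) * (G * (Lam g M (q * q) + Lam g M (X * r * r))) := by gcongr
    _ = _ := by ring

end Pool.Agent.Q182.EX
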