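import Pool.Agent.Q81.EX.Stm

/-!
Project EX (helper81, MP_db815f_an), job QIN: the moments of the solution of `-q'' = h`.
-/

set_option autoImplicit false

namespace Pool.Agent.Q182.EX

open Pool.Agent.Q81.EX
open Set MeasureTheory Filter Topology

/-- the derivative of `qq h` -/
noncomputable def dq (h : ℝ → ℝ) (s : ℝ) : ℝ :=
  (∫ r in s..1, (1 - r) * h r) - ∫ r in (0 : ℝ)..s, r * h r

theorem bd_h {h : ℝ → ℝ} (hb : Hb h) {r : ℝ} (hr : r ∈ Icc (0 : ℝ) 1) :
    |(1 - r) * h r| ≤ 12 := by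
  rcases eq_or_lt_of_le hr.2 with h1 | h1
  · rw [h1]; norm_num
  · have h2 : r ∈ Ico (0 : ℝ) 1 := ⟨hr.1, h1⟩
    have h3 : 0 < 1 - r := by linarith
    rw [abs_of_nonneg (mul_nonneg h3.le (hb.nonneg r h2))]
    have h4 := hb.le r h2
    rw [le_div_iff₀ h3] at h4
    linarith

theorem lim_B {h : ℝ → ℝ} (hb : Hb h) :
    Tendsto (fun s : ℝ => ∫ r in s..1, (1 - r) * h r) (𝓝[<] 1) (𝓝 0) := by
  have h1 : ∀ᶠ s : ℝ in 𝓝[<] 1, ‖∫ r in s..1, (1 - r) * h r‖ ≤ 12 * (1 - s) := by
    have h2 : Ioo (0 : ℝ) 1 ∈ 𝓝[<] (1 : ℝ) := Ioo_mem_nhdsLT (by norm_num)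
    filter_upwards [h2] with s hs
    have h3 := intervalIntegral.norm_integral_le_of_norm_le_const (a := s) (b := 1)
      (f := fun r => (1 - r) * h r) (C := 12) (fun r hr => by
        rw [uIoc_of_le hs.2.le] at hr
        rw [Real.norm_eq_abs]
        exact bd_h hb ⟨by linarith [hs.1, hr.1], hr.2⟩)
    rwa [abs_of_nonneg (by linarith [hs.2])] at h3
  refine squeeze_zero_norm' h1 ?_
  have h4 : Tendsto (fun s : ℝ => 12 * (1 - s)) (𝓝 1) (𝓝 (12 * (1 - 1))) := by
    have : Continuous (fun s : ℝ => 12 * (1 - s)) := by fun_prop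
    exact this.tendsto 1
  simp only [sub_self, mul_zero] at h4
  exact h4.mono_left nhdsWithin_le_nhds

theorem lim_q {h : ℝ → ℝ} (hc : ContinuousOn (qq h) (Icc 0 1)) (h1 : qq h 1 = 0) :
    Tendsto (qq h) (𝓝[<] 1) (𝓝 0) := by
  have h2 : ContinuousWithinAt (qq h) (Icc 0 1) 1 := hc 1 ⟨zero_le_one, le_rfl⟩
  have h3 : Tendsto (qq h) (𝓝[Icc 0 1] 1) (𝓝 (qq h 1)) := h2
  rw [h1] at h3
  refine h3.mono_left ?_
  rw [← nhdsWithin_Ioo_eq_nhdsLT (zero_lt_one' ℝ)]
  exact nhdsWithin_mono _ Ioo_subset_Icc_self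

theorem lim_D {h : ℝ → ℝ} (hb : Hb h) (hc : ContinuousOn (qq h) (Icc 0 1)) (h1 : qq h 1 = 0) :
    Tendsto (fun s : ℝ => (1 - s) * dq h s) (𝓝[<] 1) (𝓝 0) := by
  have e : ∀ s : ℝ, (1 - s) * dq h s = (∫ r in s..1, (1 - r) * h r) - qq h s := by
    intro s
    unfold dq qq
    ring
  simp only [e]
  have := (lim_B hb).sub (lim_q hc h1)
  simpa using this

theorem gen (hQ : S_QCV) {h : ℝ → ℝ} (hb : Hb h) (m κ κ1 w : ℝ → ℝ) (hm : Continuous m)
    (hκ : ∀ r, κ r = (1 - r) * m r) (hd : ∀ r, HasDerivAt κ (κ1 r) r)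
    (hd1 : ∀ r, HasDerivAt κ1 (-(w r)) r) (h0 : κ 0 = 0) (hw : Continuous w)
    (hmb : ∀ r ∈ Icc (0 : ℝ) 1, |m r| ≤ 1) :
    ∫ r in (0 : ℝ)..1, w r * qq h r = ∫ r in (0 : ℝ)..1, h r * κ r := by
  obtain ⟨hc, -, hq0, hq1, -, hdq, hddq⟩ := hQ h hb
  have hκc : Continuous κ := continuous_iff_continuousAt.2 fun r => (hd r).continuousAt
  have hκ1c : Continuous κ1 := continuous_iff_continuousAt.2 fun r => (hd1 r).continuousAt
  -- integrability
  have hint1 : IntervalIntegrable (fun r => h r * κ r) volume 0 1 := by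
    rw [intervalIntegrable_iff_integrableOn_Ico_of_le zero_le_one]
    have hmeas : AEStronglyMeasurable (fun r => h r * κ r) (volume.restrict (Ico (0 : ℝ) 1)) :=
      (hb.cont.mul hκc.continuousOn).aestronglyMeasurable measurableSet_Ico
    refine Integrable.of_bound hmeas 12 ?_
    refine (ae_restrict_iff' measurableSet_Ico).2 (Eventually.of_forall fun r hr => ?_)
    have h2 := bd_h hb (r := r) ⟨hr.1, hr.2.le⟩
    rw [Real.norm_eq_abs, hκ]
    have e : h r * ((1 - r) * m r) = ((1 - r) * h r) * m r := by ring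
    rw [e, abs_mul]
    calc |(1 - r) * h r| * |m r| ≤ 12 * 1 :=
          mul_le_mul h2 (hmb r ⟨hr.1, hr.2.le⟩) (abs_nonneg _) (by norm_num)
      _ = 12 := by norm_num
  have hint2 : IntervalIntegrable (fun r => w r * qq h r) volume 0 1 := by
    refine ContinuousOn.intervalIntegrable ?_
    rw [uIcc_of_le zero_le_one]
    exact hw.continuousOn.mul hc
  have hint : IntervalIntegrable (fun r => h r * κ r - w r * qq h r) volume 0 1 :=
    hint1.sub hint2
  -- the primitive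
  have hprim : ∀ b ∈ Ioo (0 : ℝ) 1, ∫ r in (0 : ℝ)..b, (h r * κ r - w r * qq h r) =
      κ1 b * qq h b - κ b * dq h b := by
    intro b hbb
    have hsub : Icc 0 b ⊆ Ico (0 : ℝ) 1 := fun x hx => ⟨hx.1, lt_of_le_of_lt hx.2 hbb.2⟩
    have hcont : ContinuousOn (fun s => κ1 s * qq h s - κ s * dq h s) (Icc 0 b) := by
      refine (hκ1c.continuousOn.mul (hc.mono fun x hx => ⟨hx.1, hx.2.trans hbb.2.le⟩)).sub
        (hκc.continuousOn.mul ?_)
      intro s hs
      exact ((hddq s (hsub hs)).continuousWithinAt).mono hsub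
    have hder : ∀ x ∈ Ioo (0 : ℝ) b, HasDerivAt (fun s => κ1 s * qq h s - κ s * dq h s)
        (h x * κ x - w x * qq h x) x := by
      intro x hx
      have hx1 : x ∈ Ioo (0 : ℝ) 1 := ⟨hx.1, hx.2.trans hbb.2⟩
      have hnb : Ico (0 : ℝ) 1 ∈ 𝓝 x := mem_of_superset (Ioo_mem_nhds hx1.1 hx1.2)
        Ioo_subset_Ico_self
      have a1 : HasDerivAt (qq h) (dq h x) x := (hdq x ⟨hx1.1.le, hx1.2⟩).hasDerivAt hnb
      have a2 : HasDerivAt (dq h) (-h x) x := (hddq x ⟨hx1.1.le, hx1.2⟩).hasDerivAt hnb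
      have a3 := ((hd1 x).mul a1).sub ((hd x).mul a2)
      refine a3.congr_deriv ?_
      ring
    have hii : IntervalIntegrable (fun r => h r * κ r - w r * qq h r) volume 0 b := by
      refine hint.mono_set ?_
      rw [uIcc_of_le zero_le_one, uIcc_of_le hbb.1.le]
      exact Icc_subset_Icc_right hbb.2.le
    rw [intervalIntegral.integral_eq_sub_of_hasDerivAt_of_le hbb.1.le hcont hder hii]
    rw [hq0, h0]
    ring
  -- the limits
  have hL1 : Tendsto (fun b : ℝ => ∫ r in (0 : ℝ)..b, (h r * κ r - w r * qq h r)) (𝓝[<] 1)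
      (𝓝 (∫ r in (0 : ℝ)..1, (h r * κ r - w r * qq h r))) := by
    have h2 := intervalIntegral.continuousOn_primitive_interval' hint
      (by simp : (0 : ℝ) ∈ uIcc (0 : ℝ) 1)
    rw [uIcc_of_le zero_le_one] at h2
    have h3 : Tendsto (fun b : ℝ => ∫ r in (0 : ℝ)..b, (h r * κ r - w r * qq h r))
        (𝓝[Icc 0 1] 1) (𝓝 (∫ r in (0 : ℝ)..1, (h r * κ r - w r * qq h r))) :=
      h2 1 ⟨zero_le_one, le_rfl⟩
    refine h3.mono_left ?_
    rw [← nhdsWithin_Ioo_eq_nhdsLT (zero_lt_one' ℝ)]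
    exact nhdsWithin_mono _ Ioo_subset_Icc_self
  have hL2 : Tendsto (fun b : ℝ => κ1 b * qq h b - κ b * dq h b) (𝓝[<] 1) (𝓝 0) := by
    have b1 : Tendsto (fun b : ℝ => κ1 b * qq h b) (𝓝[<] 1) (𝓝 (κ1 1 * 0)) :=
      (hκ1c.continuousAt.tendsto.mono_left nhdsWithin_le_nhds).mul (lim_q hc hq1)
    have b2 : Tendsto (fun b : ℝ => m b * ((1 - b) * dq h b)) (𝓝[<] 1) (𝓝 (m 1 * 0)) :=
      (hm.continuousAt.tendsto.mono_left nhdsWithin_le_nhds).mul (lim_D hb hc hq1)
    have b3 := b1.sub b2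
    simp only [mul_zero, sub_zero] at b3
    refine b3.congr fun b => ?_
    rw [hκ]
    ring
  have hL3 : Tendsto (fun b : ℝ => ∫ r in (0 : ℝ)..b, (h r * κ r - w r * qq h r)) (𝓝[<] 1)
      (𝓝 0) := by
    refine hL2.congr' ?_
    have h2 : Ioo (0 : ℝ) 1 ∈ 𝓝[<] (1 : ℝ) := Ioo_mem_nhdsLT (by norm_num)
    filter_upwards [h2] with b hbb
    exact (hprim b hbb).symm
  have hfin := tendsto_nhds_unique hL1 hL3
  rw [intervalIntegral.integral_sub hint1 hint2] at hfin
  linarith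

theorem qin (hQCV : S_QCV) : S_QIN := by
  intro h hb
  constructor
  · have := gen hQCV hb (fun r => r * (1 + r) / 6) (fun r => (r - r ^ 3) / 6)
      (fun r => (1 - 3 * r ^ 2) / 6) (fun r => r) (by fun_prop) (fun r => by ring)
      (fun r => by
        have h1 := ((hasDerivAt_id r).sub (hasDerivAt_pow 3 r)).div_const 6
        refine h1.congr_deriv ?_
        norm_num)
      (fun r => by
        have h1 := (((hasDerivAt_pow 2 r).const_mul 3).const_sub 1).div_const 6
        refine h1.congr_deriv ?_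
        norm_num
        ring)
      (by norm_num) continuous_id
      (fun r hr => by
        rw [abs_of_nonneg (by have := hr.1; positivity)]
        nlinarith [hr.1, hr.2])
    exact this
  · have := gen hQCV hb (fun r => r * (1 + r + r ^ 2) / 12) (fun r => (r - r ^ 4) / 12)
      (fun r => (1 - 4 * r ^ 3) / 12) (fun r => r ^ 2) (by fun_prop) (fun r => by ring)
      (fun r => by
        have h1 := ((hasDerivAt_id r).sub (hasDerivAt_pow 4 r)).div_const 12
        refine h1.congr_deriv ?_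
        norm_num)
      (fun r => by
        have h1 := (((hasDerivAt_pow 3 r).const_mul 4).const_sub 1).div_const 12
        refine h1.congr_deriv ?_
        norm_num
        ring)
      (by norm_num) (by fun_prop)
      (fun r hr => by
        rw [abs_of_nonneg (by have := hr.1; positivity)]
        have h2 : r ^ 2 ≤ 1 := by nlinarith [hr.1, hr.2]
        have h3 : r * (1 + r + r ^ 2) ≤ 1 * 3 :=
          mul_le_mul hr.2 (by linarith [hr.2]) (by have := hr.1; positivity) (by norm_num)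
        linarith)
    exact this

end Pool.Agent.Q182.EX
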